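import Pool.Agent.Helper14.W5.StB

set_option autoImplicit false

/-!
Module PMon of project W5: monotonicity in the level.
-/

namespace Pool.Agent.Helper92.W5

open Pool.Agent.Helper14.W5

theorem hPMon : SPMon := fun _ _ _ _ _ _ hmn h =>
  ⟨h.1, fun a b c d hd hb hc => h.2 a b c d hd hb ((pow_dvd_pow _ hmn).trans hc)⟩

end Pool.Agent.Helper92.W5
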