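import Pool.Agent.Helper14.W5.StD

/-!
# Project W5, module LIFP: lifting solutions of the relations to the integers
-/

set_option autoImplicit false

namespace Pool.Agent.Helper92.W5.LifpM

open Pool.Agent.Helper14.W5

private abbrev Pt (r s : ℕ) : Type := ZMod (5 ^ r) × ZMod (5 ^ s)

private def mu {r s : ℕ} (a b c d : ℤ) (p : Pt r s) : Pt r s :=
  tr5 a b c d (fun x y => ((x, y) : Pt r s)) p.1 p.2

private theorem mu_mul (hTrm : S5Trm) {r s : ℕ} {a b c d a' b' c' d' : ℤ} (h1 : ¬ 5 ∣ a)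
    (h2 : ¬ 5 ∣ d) (h3 : ¬ 5 ∣ a') (h4 : ¬ 5 ∣ d') (p : Pt r s) :
    mu a' b' c' d' (mu a b c d p) =
      mu (a * a' + 5 * b * c') (a * b' + b * d') (c * a' + d * c') (5 * c * b' + d * d') p := by
  have h := congrFun (congrFun ((hTrm (Pt r s) r s (fun x y => (x, y))).1 a b c d a' b' c' d'
    h1 h2 h3 h4) p.1) p.2
  exact h

private theorem mu_one (hTrm : S5Trm) {r s : ℕ} (p : Pt r s) : mu 1 0 0 1 p = p := by
  have h := congrFun (congrFun (hTrm (Pt r s) r s (fun x y => (x, y))).2.1 p.1) p.2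
  exact h

private theorem mu_neg_one (hTrm : S5Trm) {r s : ℕ} (p : Pt r s) : mu (-1) 0 0 (-1) p = p := by
  have h := congrFun (congrFun ((hTrm (Pt r s) r s (fun x y => (x, y))).2.2 (-1) 1 0 0 1
    (by norm_num) (by norm_num) (by norm_num)) p.1) p.2
  have h2 : mu (-1) 0 0 (-1) p = mu 1 0 0 1 p := by
    unfold mu
    norm_num at h ⊢
    exact h
  rw [h2, mu_one hTrm]

private theorem res {a b c d : ℤ} (h : a * d - 5 * b * c = 1) : ¬ 5 ∣ a ∧ ¬ 5 ∣ d := by
  constructor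
  · rintro ⟨k, rfl⟩
    have : 5 * (k * d) - 5 * (b * c) = 1 := by linear_combination h
    omega
  · rintro ⟨k, rfl⟩
    have : 5 * (a * k) - 5 * (b * c) = 1 := by linear_combination h
    omega

private theorem mu_inv (hTrm : S5Trm) {r s : ℕ} {a b c d : ℤ} (h : a * d - 5 * b * c = 1)
    (p : Pt r s) : mu d (-b) (-c) a (mu a b c d p) = p := by
  obtain ⟨h1, h2⟩ := res h
  rw [mu_mul hTrm h1 h2 h2 h1]
  have e1 : a * d + 5 * b * -c = 1 := by linear_combination h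
  have e2 : a * -b + b * a = 0 := by ring
  have e3 : c * d + d * -c = 0 := by ring
  have e4 : 5 * c * -b + d * a = 1 := by linear_combination h
  rw [e1, e2, e3, e4, mu_one hTrm]

private theorem mu_bij (hTrm : S5Trm) {r s : ℕ} {a b c d : ℤ} (h : a * d - 5 * b * c = 1) :
    Function.Bijective (mu a b c d : Pt r s → Pt r s) := by
  refine Function.bijective_iff_has_inverse.2 ⟨mu d (-b) (-c) a, fun p => mu_inv hTrm h p,
    fun p => ?_⟩
  have := mu_inv hTrm (r := r) (s := s) (a := d) (b := -b) (c := -c) (d := a)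
    (by linear_combination h) p
  rw [neg_neg, neg_neg] at this
  exact this

private instance fin_pt (r s : ℕ) : Fintype (Pt r s) := by
  have : NeZero (5 ^ r) := ⟨by positivity⟩
  have : NeZero (5 ^ s) := ⟨by positivity⟩
  infer_instance

/-- `T`, `τ2`, `τ3` and the inverse of `B` on points. -/
private def mT {r s : ℕ} : Pt r s → Pt r s := mu 1 1 0 1
private def m2 {r s : ℕ} : Pt r s → Pt r s := mu 2 (-1) 1 (-2)
private def m3 {r s : ℕ} : Pt r s → Pt r s := mu 3 (-2) 1 (-3)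
private def mB {r s : ℕ} : Pt r s → Pt r s := mu 1 0 (-1) 1

private theorem bT (hTrm : S5Trm) {r s : ℕ} : Function.Bijective (mT : Pt r s → Pt r s) :=
  mu_bij hTrm (by norm_num)
private theorem b2 (hTrm : S5Trm) {r s : ℕ} : Function.Bijective (m2 : Pt r s → Pt r s) :=
  mu_bij hTrm (by norm_num)
private theorem b3 (hTrm : S5Trm) {r s : ℕ} : Function.Bijective (m3 : Pt r s → Pt r s) :=
  mu_bij hTrm (by norm_num)

private theorem m22 (hTrm : S5Trm) {r s : ℕ} (p : Pt r s) : m2 (m2 p) = p := by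
  unfold m2
  rw [mu_mul hTrm (by norm_num) (by norm_num) (by norm_num) (by norm_num)]
  norm_num
  exact mu_neg_one hTrm p

private theorem m33 (hTrm : S5Trm) {r s : ℕ} (p : Pt r s) : m3 (m3 p) = p := by
  unfold m3
  rw [mu_mul hTrm (by norm_num) (by norm_num) (by norm_num) (by norm_num)]
  norm_num
  exact mu_neg_one hTrm p

private theorem mT3 (hTrm : S5Trm) {r s : ℕ} (p : Pt r s) : mT (m3 p) = mu 3 1 1 2 p := by
  unfold mT m3
  rw [mu_mul hTrm (by norm_num) (by norm_num) (by norm_num) (by norm_num)]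
  norm_num

private theorem mBT (hTrm : S5Trm) {r s : ℕ} (p : Pt r s) : mB (mT p) = m2 (m3 p) := by
  unfold mB mT m2 m3
  rw [mu_mul hTrm (by norm_num) (by norm_num) (by norm_num) (by norm_num),
    mu_mul hTrm (by norm_num) (by norm_num) (by norm_num) (by norm_num)]
  norm_num

/-- the defect of the relation -/
private def cob (r s : ℕ) : (Fin 3 → Pt r s → ℤ) →+ (Pt r s → ℤ) where
  toFun H := fun p => H 0 p - H 0 (mT p) - (H 1 p - H 1 (m2 p)) - (H 2 p - H 2 (m3 p))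
  map_zero' := by funext p; simp
  map_add' H K := by funext p; simp only [Pi.add_apply]; ring

private noncomputable def dl {r s : ℕ} (p : Pt r s) : Pt r s → ℤ := by
  classical exact Pi.single p 1

private theorem dl_app {r s : ℕ} (p q : Pt r s) [Decidable (q = p)] :
    dl p q = if q = p then 1 else 0 := by
  classical
  unfold dl
  rw [Pi.single_apply]
  congr

private def Eqp {r s : ℕ} (p q : Pt r s) : Prop := dl p - dl q ∈ (cob r s).range

private theorem Eqp.rfl' {r s : ℕ} (p : Pt r s) : Eqp p p := by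
  unfold Eqp; rw [sub_self]; exact zero_mem _

private theorem Eqp.sym {r s : ℕ} {p q : Pt r s} (h : Eqp p q) : Eqp q p := by
  unfold Eqp at *; have := neg_mem h; rwa [neg_sub] at this

private theorem Eqp.trs {r s : ℕ} {p q t : Pt r s} (h : Eqp p q) (h' : Eqp q t) : Eqp p t := by
  unfold Eqp at *; have := add_mem h h'; rwa [sub_add_sub_cancel] at this

private theorem dl_inj {r s : ℕ} {f : Pt r s → Pt r s} (hf : Function.Injective f) (p q : Pt r s) :
    dl (f p) (f q) = dl p q := by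
  classical
  rw [dl_app, dl_app]
  simp [hf.eq_iff]

private theorem eT (hTrm : S5Trm) {r s : ℕ} (p : Pt r s) : Eqp (mT p) p := by
  refine ⟨![dl (mT p), 0, 0], ?_⟩
  funext q
  simp [cob, dl_inj (bT hTrm).1 p q]

private theorem e2 (hTrm : S5Trm) {r s : ℕ} (p : Pt r s) : Eqp (m2 p) p := by
  refine ⟨![0, -dl (m2 p), 0], ?_⟩
  funext q
  simp [cob, dl_inj (b2 hTrm).1 p q]
  ring

private theorem e3 (hTrm : S5Trm) {r s : ℕ} (p : Pt r s) : Eqp (m3 p) p := by
  refine ⟨![0, 0, -dl (m3 p)], ?_⟩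
  funext q
  simp [cob, dl_inj (b3 hTrm).1 p q]
  ring

private theorem eB (hTrm : S5Trm) {r s : ℕ} (p : Pt r s) : Eqp (mB p) p := by
  obtain ⟨q, rfl⟩ := (bT hTrm).2 p
  rw [mBT hTrm]
  exact ((e2 hTrm (m3 q)).trs (e3 hTrm q)).trs (eT hTrm q).sym

private theorem eqp_y (hTrm : S5Trm) {r s : ℕ} : ∀ (n : ℕ),
    Eqp ((0, (n : ZMod (5 ^ s))) : Pt r s) (0, 0) := by
  intro n
  induction n with
  | zero => rw [Nat.cast_zero]; exact Eqp.rfl' _
  | succ n ih =>
    have h := eB hTrm ((0, ((n + 1 : ℕ) : ZMod (5 ^ s))) : Pt r s)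
    have e : mB ((0, ((n + 1 : ℕ) : ZMod (5 ^ s))) : Pt r s) = (0, (n : ZMod (5 ^ s))) := by
      have h1 : ((1 : ZMod (5 ^ s)))⁻¹ = 1 := ZMod.inv_eq_of_mul_eq_one _ _ _ (by ring)
      simp [mB, mu, tr5, h1]
    rw [e] at h
    exact h.sym.trs ih

private theorem eqp_x (hTrm : S5Trm) {r s : ℕ} : ∀ (n : ℕ) (x : ZMod (5 ^ r)) (y : ZMod (5 ^ s)),
    x + n = 0 → Eqp ((x, y) : Pt r s) (0, 0) := by
  intro n
  induction n with
  | zero =>
    intro x y h
    have : NeZero (5 ^ s) := ⟨by positivity⟩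
    rw [Nat.cast_zero, add_zero] at h
    subst h
    have := eqp_y hTrm (r := r) (s := s) y.val
    rwa [ZMod.natCast_zmod_val] at this
  | succ n ih =>
    intro x y h
    have h1 := eT hTrm ((x, y) : Pt r s)
    refine h1.sym.trs ?_
    have h2 : (mT ((x, y) : Pt r s)).1 = x + 1 := by
      have h1 : ((1 : ZMod (5 ^ r)))⁻¹ = 1 := ZMod.inv_eq_of_mul_eq_one _ _ _ (by ring)
      simp [mT, mu, tr5, h1, add_comm]
    have h3 : mT ((x, y) : Pt r s) = (x + 1, (mT ((x, y) : Pt r s)).2) := by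
      rw [← h2]
    rw [h3]
    apply ih
    rw [← h]
    push_cast
    ring

private theorem eqp_all (hTrm : S5Trm) {r s : ℕ} (p : Pt r s) : Eqp p (0, 0) := by
  have : NeZero (5 ^ r) := ⟨by positivity⟩
  exact eqp_x hTrm (-p.1).val p.1 p.2 (by rw [ZMod.natCast_zmod_val]; ring)

private theorem mem_of_sum (hTrm : S5Trm) {r s : ℕ} (E : Pt r s → ℤ) (hE : ∑ p, E p = 0) :
    E ∈ (cob r s).range := by
  classical
  have h1 : E = ∑ p, E p • (dl p - dl (0, 0)) := by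
    have h2 : ∑ p, E p • (dl p - dl ((0, 0) : Pt r s)) =
        ∑ p, E p • dl p - (∑ p, E p) • dl ((0, 0) : Pt r s) := by
      rw [Finset.sum_smul, ← Finset.sum_sub_distrib]
      exact Finset.sum_congr rfl fun p _ => smul_sub _ _ _
    rw [h2, hE, zero_smul, sub_zero]
    funext q
    rw [Finset.sum_apply]
    simp [dl_app]
  rw [h1]
  exact sum_mem fun p _ => zsmul_mem (eqp_all hTrm p) _

private theorem sum_cob (hTrm : S5Trm) {r s : ℕ} (H : Fin 3 → Pt r s → ℤ) :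
    ∑ p, cob r s H p = 0 := by
  have hT := (bT hTrm (r := r) (s := s)).sum_comp (H 0)
  have h2 := (b2 hTrm (r := r) (s := s)).sum_comp (H 1)
  have h3 := (b3 hTrm (r := r) (s := s)).sum_comp (H 2)
  show ∑ p, (H 0 p - H 0 (mT p) - (H 1 p - H 1 (m2 p)) - (H 2 p - H 2 (m3 p))) = 0
  simp only [Finset.sum_sub_distrib]
  rw [hT, h2, h3]
  ring

theorem hLifp (hm : S5Trm) : S5Lifp := by
  intro r s f hf
  obtain ⟨hf1, hf2⟩ := hf
  -- the functions `f`, `a = F1/2`, `b = k/2` modulo 5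
  let kf : Pt r s → ZMod 5 := fun p => f 0 p.1 p.2 - f 0 (mT p).1 (mT p).2 - f 1 p.1 p.2
  let L : Fin 3 → Pt r s → ℤ :=
    ![fun p => ((f 0 p.1 p.2).val : ℤ), fun p => ((3 * f 1 p.1 p.2).val : ℤ),
      fun p => ((3 * kf p).val : ℤ)]
  have hL0 : ∀ p, ((L 0 p : ℤ) : ZMod 5) = f 0 p.1 p.2 := by
    intro p
    show ((((f 0 p.1 p.2).val : ℤ)) : ZMod 5) = _
    push_cast
    exact ZMod.natCast_zmod_val _
  have hL1 : ∀ p, ((L 1 p : ℤ) : ZMod 5) = 3 * f 1 p.1 p.2 := by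
    intro p
    show ((((3 * f 1 p.1 p.2).val : ℤ)) : ZMod 5) = _
    push_cast
    exact ZMod.natCast_zmod_val _
  have hL2 : ∀ p, ((L 2 p : ℤ) : ZMod 5) = 3 * kf p := by
    intro p
    show ((((3 * kf p).val : ℤ)) : ZMod 5) = _
    push_cast
    exact ZMod.natCast_zmod_val _
  have h5 : (5 : ZMod 5) = 0 := by decide
  have q2 : ∀ p : Pt r s, f 1 (m2 p).1 (m2 p).2 = -f 1 p.1 p.2 := by
    intro p
    have h := hf1 p.1 p.2
    have h' : f 1 p.1 p.2 + f 1 (m2 p).1 (m2 p).2 = 0 := h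
    linear_combination h'
  have q3 : ∀ p : Pt r s, kf (m3 p) = -kf p := by
    intro p
    have h := hf2 p.1 p.2
    have h' : f 0 p.1 p.2 - f 0 (mT p).1 (mT p).2 - f 1 p.1 p.2 +
      (f 0 (m3 p).1 (m3 p).2 - f 0 (mu 3 1 1 2 p).1 (mu 3 1 1 2 p).2 -
        f 1 (m3 p).1 (m3 p).2) = 0 := h
    rw [← mT3 hm p] at h'
    show f 0 (m3 p).1 (m3 p).2 - f 0 (mT (m3 p)).1 (mT (m3 p)).2 - f 1 (m3 p).1 (m3 p).2 =
      -(f 0 p.1 p.2 - f 0 (mT p).1 (mT p).2 - f 1 p.1 p.2)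
    linear_combination h'
  have h3 : ∀ p, (5 : ℤ) ∣ cob r s L p := by
    intro p
    apply (ZMod.intCast_zmod_eq_zero_iff_dvd _ 5).1
    show ((L 0 p - L 0 (mT p) - (L 1 p - L 1 (m2 p)) - (L 2 p - L 2 (m3 p)) : ℤ) : ZMod 5) = 0
    push_cast
    rw [hL0, hL0, hL1, hL1, hL2, hL2, q2, q3]
    show f 0 p.1 p.2 - f 0 (mT p).1 (mT p).2 - (3 * f 1 p.1 p.2 - 3 * -f 1 p.1 p.2) -
      (3 * (f 0 p.1 p.2 - f 0 (mT p).1 (mT p).2 - f 1 p.1 p.2) -
        3 * -(f 0 p.1 p.2 - f 0 (mT p).1 (mT p).2 - f 1 p.1 p.2)) = 0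
    linear_combination (-(f 0 p.1 p.2 - f 0 (mT p).1 (mT p).2)) * h5
  choose D hD using h3
  have hs : ∑ p, D p = 0 := by
    have h := sum_cob hm L
    rw [Finset.sum_congr rfl fun p _ => hD p, ← Finset.mul_sum] at h
    omega
  obtain ⟨H, hH⟩ := mem_of_sum hm D hs
  let F : Fin 3 → Pt r s → ℤ := fun i p => L i p - 5 * H i p
  have hF : ∀ p, F 0 p - F 0 (mT p) - (F 1 p - F 1 (m2 p)) - (F 2 p - F 2 (m3 p)) = 0 := by
    intro p
    have h1 := hD p
    have h2 := congrFun hH p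
    have e1 : cob r s L p = L 0 p - L 0 (mT p) - (L 1 p - L 1 (m2 p)) -
      (L 2 p - L 2 (m3 p)) := rfl
    have e2 : cob r s H p = H 0 p - H 0 (mT p) - (H 1 p - H 1 (m2 p)) -
      (H 2 p - H 2 (m3 p)) := rfl
    rw [e1] at h1
    rw [e2] at h2
    show (L 0 p - 5 * H 0 p) - (L 0 (mT p) - 5 * H 0 (mT p)) -
      ((L 1 p - 5 * H 1 p) - (L 1 (m2 p) - 5 * H 1 (m2 p))) -
      ((L 2 p - 5 * H 2 p) - (L 2 (m3 p) - 5 * H 2 (m3 p))) = 0
    linear_combination h1 - 5 * h2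
  refine ⟨![fun x y => F 0 (x, y), fun x y => F 1 (x, y) - F 1 (m2 (x, y))], ⟨?_, ?_⟩, ?_⟩
  · intro x y
    show (F 1 (x, y) - F 1 (m2 (x, y))) + (F 1 (m2 (x, y)) - F 1 (m2 (m2 (x, y)))) = 0
    rw [m22 hm]
    ring
  · intro x y
    have h1 := hF (x, y)
    have h2 := hF (m3 (x, y))
    show F 0 (x, y) - F 0 (mT (x, y)) - (F 1 (x, y) - F 1 (m2 (x, y))) +
      (F 0 (m3 (x, y)) - F 0 (mu 3 1 1 2 (x, y)) -
        (F 1 (m3 (x, y)) - F 1 (m2 (m3 (x, y))))) = 0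
    rw [m33 hm] at h2
    rw [← mT3 hm]
    linear_combination h1 + h2
  · intro i x y
    fin_cases i
    · show ((L 0 (x, y) - 5 * H 0 (x, y) : ℤ) : ZMod 5) = f 0 x y
      push_cast
      rw [hL0, h5, zero_mul, sub_zero]
    · show (((L 1 (x, y) - 5 * H 1 (x, y)) - (L 1 (m2 (x, y)) - 5 * H 1 (m2 (x, y))) : ℤ) :
        ZMod 5) = f 1 x y
      push_cast
      rw [hL1, hL1, q2]
      show (3 * f 1 x y - 5 * ((H 1 (x, y) : ℤ) : ZMod 5)) -
        (3 * -f 1 x y - 5 * ((H 1 (m2 (x, y)) : ℤ) : ZMod 5)) = f 1 x y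
      linear_combination (f 1 x y - (H 1 (x, y) : ZMod 5) + (H 1 (m2 (x, y)) : ZMod 5)) * h5

end Pool.Agent.Helper92.W5.LifpM

namespace Pool.Agent.Helper92.W5

open Pool.Agent.Helper14.W5

theorem hLifp (hm : S5Trm) : S5Lifp := LifpM.hLifp hm

end Pool.Agent.Helper92.W5
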